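import Pool.Agent.H5.OR.Targets

/-!
# Isomorphism problem for one-relator groups: roots generate malnormal subgroups (ML)
-/

set_option autoImplicit false

open scoped Classical

namespace Pool.Agent.H60.ORG

open ORg

theorem pf_ML (CT : T_CT) (TC : T_TC) (CC : T_CC) : T_ML := by
  intro X w x m n hR hm hx
  have hw : w ≠ 1 := by
    rintro rfl
    rcases hR 1 0 (zpow_zero _) with h | h
    · exact absurd h (by norm_num)
    · exact absurd h (by norm_num)
  have hwm : ∀ k : ℤ, k ≠ 0 → w ^ k ≠ 1 := fun k hk h =>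
    hw ((IsMulTorsionFree.zpow_eq_one_iff_left hk).mp h)
  have hn : n ≠ 0 := by
    rintro rfl
    rw [zpow_zero] at hx
    refine hwm m hm ?_
    have : w ^ m = x⁻¹ * (x * w ^ m * x⁻¹) * x := by group
    rw [this, hx]
    group
  obtain ⟨S, hS⟩ := CT X
  have hAC : S.AC := fun g hg u _ _ _ hu _ => absurd (hS g u hu) hg
  obtain ⟨k, hk, hxk⟩ := TC (FreeGroup X) S w x m n hAC (fun v hv => hw (hS w v hv)) hm hn hx
  obtain ⟨j, hj⟩ := Subgroup.mem_zpowers_iff.mp hxk
  by_cases hx1 : x = 1
  · rw [hx1]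
    exact one_mem _
  have hxk1 : x ^ k ≠ 1 := fun h => hx1 ((IsMulTorsionFree.zpow_eq_one_iff_left hk).mp h)
  set H : Subgroup (FreeGroup X) := Subgroup.closure {x, w} with hH
  have hxH : x ∈ H := Subgroup.subset_closure (by simp)
  have hwH : w ∈ H := Subgroup.subset_closure (by simp)
  have hcen : ∀ g ∈ H, g * x ^ k = x ^ k * g := by
    intro g hg
    have hle : H ≤ Subgroup.centralizer {x ^ k} := by
      rw [hH, Subgroup.closure_le]
      rintro y (rfl | rfl)
      · rw [SetLike.mem_coe, Subgroup.mem_centralizer_iff]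
        rintro h rfl
        exact (Commute.zpow_self y k).eq
      · rw [SetLike.mem_coe, Subgroup.mem_centralizer_iff]
        rintro h rfl
        rw [← hj]
        exact (Commute.zpow_self y j).eq
    have := Subgroup.mem_centralizer_iff.mp (hle hg) (x ^ k) rfl
    exact this.symm
  obtain ⟨v, hv⟩ := CC H ⟨x ^ k, H.zpow_mem hxH k⟩ (by
    intro h
    exact hxk1 (congrArg Subtype.val h)) (by
    intro g
    exact Subtype.ext (hcen g.1 g.2))
  obtain ⟨i, hi⟩ := Subgroup.mem_zpowers_iff.mp (hv ⟨w, hwH⟩)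
  obtain ⟨l, hl⟩ := Subgroup.mem_zpowers_iff.mp (hv ⟨x, hxH⟩)
  have hi' : (v : FreeGroup X) ^ i = w := by
    have := congrArg Subtype.val hi
    simpa using this
  have hl' : (v : FreeGroup X) ^ l = x := by
    have := congrArg Subtype.val hl
    simpa using this
  rw [← hl']
  refine Subgroup.zpow_mem _ ?_ l
  rcases hR v i hi' with h | h
  · rw [h, zpow_one] at hi'
    rw [hi']
    exact Subgroup.mem_zpowers w
  · rw [h, zpow_neg, zpow_one] at hi'
    rw [← hi']
    exact Subgroup.mem_zpowers_iff.mpr ⟨-1, by simp⟩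

end Pool.Agent.H60.ORG
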